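import Pool.Agent.Helper28.T3E.StF

/-!
# Project T3E, module CNTE: counting the index set
-/

set_option autoImplicit false

namespace Pool.Agent.Helper53.T3E

open Pool.Agent.Helper28.T3E

/-- Counting the numbers below `c`. -/
private theorem inner (A c : ℕ) (h : c ≤ A) :
    (∑ i ∈ Finset.range A, if i < c then 1 else 0) = c := by
  rw [← Finset.sum_filter, Finset.sum_const, smul_eq_mul, mul_one]
  have : (Finset.range A).filter (fun i => i < c) = Finset.range c := by
    ext i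
    simp only [Finset.mem_filter, Finset.mem_range]
    omega
  rw [this, Finset.card_range]

/-- Terms `g (M - j)` with `g 0 = 0` vanish beyond `M`. -/
private theorem cut (g : ℕ → ℕ) (hg : g 0 = 0) (B M : ℕ) (h : M ≤ B) :
    ∑ j ∈ Finset.range B, g (M - j) = ∑ j ∈ Finset.range M, g (M - j) := by
  symm
  apply Finset.sum_subset
  · intro j hj
    simp only [Finset.mem_range] at hj ⊢
    omega
  · intro j _ hj
    simp only [Finset.mem_range] at hj
    rw [Nat.sub_eq_zero_of_le (by omega), hg]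

/-- The sum of the `6 (M - j) - 4`. -/
private theorem sum6 (M : ℕ) :
    (∑ j ∈ Finset.range M, (6 * (M - j) - 4)) + M = 3 * (M * M) := by
  induction M with
  | zero => simp
  | succ M ih =>
    rw [Finset.sum_range_succ']
    have h : (∑ k ∈ Finset.range M, (6 * (M + 1 - (k + 1)) - 4)) =
        ∑ k ∈ Finset.range M, (6 * (M - k) - 4) :=
      Finset.sum_congr rfl fun k _ => by
        have : M + 1 - (k + 1) = M - k := by omega
        rw [this]
    rw [h]
    have e : 6 * (M + 1 - 0) - 4 = 6 * M + 2 := by omega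
    rw [e]
    nlinarith

/-- The sum of the `2 (M - j - 1)`. -/
private theorem sum2 (M : ℕ) : (∑ j ∈ Finset.range M, 2 * (M - j - 1)) + M = M * M := by
  induction M with
  | zero => simp
  | succ M ih =>
    rw [Finset.sum_range_succ']
    have h : (∑ k ∈ Finset.range M, 2 * (M + 1 - (k + 1) - 1)) =
        ∑ k ∈ Finset.range M, 2 * (M - k - 1) :=
      Finset.sum_congr rfl fun k _ => by
        have : M + 1 - (k + 1) = M - k := by omega
        rw [this]
    rw [h]
    have e : 2 * (M + 1 - 0 - 1) = 2 * M := by omega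
    rw [e]
    nlinarith

/-- The first set. -/
private theorem tri1 (A B M : ℕ) (hA : 6 * M ≤ A) (hB : M ≤ B) :
    ((Finset.range A ×ˢ Finset.range B).filter
      fun t : ℕ × ℕ => t.1 / 2 + 1 + 3 * t.2 + 1 < 3 * M).card + M = 3 * (M * M) := by
  rw [← sum6 M]
  congr 1
  rw [Finset.card_filter, Finset.sum_product_right,
    ← cut (fun x => 6 * x - 4) rfl B M hB]
  apply Finset.sum_congr rfl
  intro j _
  show _ = 6 * (M - j) - 4
  rw [← inner A (6 * (M - j) - 4) (by omega)]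
  apply Finset.sum_congr rfl
  intro i _
  by_cases h : i / 2 + 1 + 3 * j + 1 < 3 * M
  · rw [if_pos h, if_pos (by omega)]
  · rw [if_neg h, if_neg (by omega)]

/-- The second set. -/
private theorem tri2 (A B M : ℕ) (hA : 2 * M ≤ A) (hB : M ≤ B) :
    ((Finset.range A ×ˢ Finset.range B).filter
      fun t : ℕ × ℕ => t.1 / 2 + 1 + t.2 < M).card + M = M * M := by
  rw [← sum2 M]
  congr 1
  rw [Finset.card_filter, Finset.sum_product_right,
    ← cut (fun x => 2 * (x - 1)) rfl B M hB]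
  apply Finset.sum_congr rfl
  intro j _
  show _ = 2 * (M - j - 1)
  rw [← inner A (2 * (M - j - 1)) (by omega)]
  apply Finset.sum_congr rfl
  intro i _
  by_cases h : i / 2 + 1 + j < M
  · rw [if_pos h, if_pos (by omega)]
  · rw [if_neg h, if_neg (by omega)]

private theorem de_odd (m : ℕ) : de3 (2 * m + 5) = 2 * 3 ^ m * (3 ^ (m + 1) - 1) := by
  unfold de3
  rw [if_neg (by omega), if_neg (by omega)]
  have h : (2 * m + 5) / 2 - 2 = m := by omega
  have h' : (2 * m + 5) / 2 - 1 = m + 1 := by omega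
  rw [h, h']

private theorem de_even (m : ℕ) : de3 (2 * m + 4) = 2 * 9 ^ m := by
  unfold de3
  rw [if_neg (by omega), if_pos (by omega)]
  have h : (2 * m + 4) / 2 - 2 = m := by omega
  rw [h]

private theorem DE_succ (n : ℕ) : DE3 (n + 1) = DE3 n + de3 (n + 1) := by
  unfold DE3
  rw [Finset.sum_range_succ (fun m => de3 m) (n + 1)]

private theorem nine (m : ℕ) : (9 : ℕ) ^ m = 3 ^ m * 3 ^ m := by
  rw [← mul_pow]
  norm_num

private theorem DE_odd_of (m : ℕ) (h : DE3 (2 * m + 4) + 3 ^ m = 3 * (3 ^ m * 3 ^ m)) :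
    DE3 (2 * m + 5) + 3 ^ (m + 1) = 3 ^ (m + 1) * 3 ^ (m + 1) := by
  have h1 : DE3 (2 * m + 5) = DE3 (2 * m + 4) + de3 (2 * m + 5) := DE_succ (2 * m + 4)
  rw [h1, de_odd, pow_succ]
  obtain ⟨x, hx⟩ : ∃ x : ℕ, (3 : ℕ) ^ m = x + 1 :=
    ⟨3 ^ m - 1, by have : 0 < (3 : ℕ) ^ m := Nat.pow_pos (by norm_num); omega⟩
  rw [hx] at h ⊢
  have e : (x + 1) * 3 - 1 = 3 * x + 2 := by omega
  rw [e]
  nlinarith

private theorem DE_even (m : ℕ) : DE3 (2 * m + 4) + 3 ^ m = 3 * (3 ^ m * 3 ^ m) := by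
  induction m with
  | zero => decide
  | succ m ih =>
    have h1 : DE3 (2 * (m + 1) + 4) = DE3 (2 * m + 5) + de3 (2 * (m + 1) + 4) := by
      rw [show 2 * (m + 1) + 4 = (2 * m + 5) + 1 by ring, DE_succ]
    have h2 := DE_odd_of m ih
    rw [h1, de_even, nine]
    nlinarith

/-- CNTE. -/
theorem hCNTE : StCNTE := by
  constructor
  · intro k hk
    obtain ⟨m, rfl⟩ : ∃ m, k = m + 2 := ⟨k - 2, by omega⟩
    have hp : (3 : ℕ) ^ (m + 2 - 1) = 3 * 3 ^ m := by
      rw [show m + 2 - 1 = m + 1 by omega, pow_succ]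
      ring
    have hq : (3 : ℕ) ^ (m + 2) = 9 * 3 ^ m := by
      rw [pow_add]
      ring
    have h1 := tri1 (2 * 3 ^ (m + 2)) (3 ^ (m + 2)) (3 ^ m) (by omega) (by omega)
    have h2 : DE3 (2 * (m + 2)) + 3 ^ m = 3 * (3 ^ m * 3 ^ m) := DE_even m
    have h3 : ((Finset.range (2 * 3 ^ (m + 2)) ×ˢ Finset.range (3 ^ (m + 2))).filter
        fun t : ℕ × ℕ => t.1 / 2 + 1 + 3 * t.2 + 1 < 3 ^ (m + 2 - 1) ∧
          t.1 / 2 + 1 + t.2 < 3 ^ (m + 2 - 1)) =
        ((Finset.range (2 * 3 ^ (m + 2)) ×ˢ Finset.range (3 ^ (m + 2))).filter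
          fun t : ℕ × ℕ => t.1 / 2 + 1 + 3 * t.2 + 1 < 3 * 3 ^ m) := by
      apply Finset.filter_congr
      intro t _
      rw [hp]
      constructor
      · intro h
        exact h.1
      · intro h
        constructor <;> omega
    rw [h3]
    omega
  · intro k hk
    obtain ⟨m, rfl⟩ : ∃ m, k = m + 2 := ⟨k - 2, by omega⟩
    have hp : (3 : ℕ) ^ (m + 2 - 1) = 3 ^ (m + 1) := by
      rw [show m + 2 - 1 = m + 1 by omega]
    have hq : (3 : ℕ) ^ (m + 2) = 3 * 3 ^ (m + 1) := by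
      rw [pow_succ (3 : ℕ) (m + 1)]
      ring
    have hr : (3 : ℕ) ^ (m + 2 + 1) = 9 * 3 ^ (m + 1) := by
      rw [show m + 2 + 1 = (m + 1) + 2 by omega, pow_add (3 : ℕ) (m + 1) 2]
      ring
    have h1 := tri2 (2 * 3 ^ (m + 2 + 1)) (3 ^ (m + 2 + 1)) (3 ^ (m + 1)) (by omega) (by omega)
    have h2 : DE3 (2 * (m + 2) + 1) + 3 ^ (m + 1) = 3 ^ (m + 1) * 3 ^ (m + 1) :=
      DE_odd_of m (DE_even m)
    have h3 : ((Finset.range (2 * 3 ^ (m + 2 + 1)) ×ˢ Finset.range (3 ^ (m + 2 + 1))).filter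
        fun t : ℕ × ℕ => t.1 / 2 + 1 + 3 * t.2 + 1 < 3 ^ (m + 2) ∧
          t.1 / 2 + 1 + t.2 < 3 ^ (m + 2 - 1)) =
        ((Finset.range (2 * 3 ^ (m + 2 + 1)) ×ˢ Finset.range (3 ^ (m + 2 + 1))).filter
          fun t : ℕ × ℕ => t.1 / 2 + 1 + t.2 < 3 ^ (m + 1)) := by
      apply Finset.filter_congr
      intro t _
      rw [hp, hq]
      constructor
      · intro h
        exact h.2
      · intro h
        constructor <;> omega
    rw [h3]
    omega

end Pool.Agent.Helper53.T3E
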